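import Mathlib

/-!
# Injective homomorphisms of the Möbius-Kantor configuration into planes of prime order

The sequence `log_p inj(H, G_p)`, `p` prime, does not converge when `H` is the incidence graph of the
Möbius-Kantor configuration `8_3` (points and lines are the residues modulo `8`, the line `j` contains the points
`j`, `j + 1`, `j + 3`). For a field `K` there is an injective homomorphism of `H` into the incidence graph of
`PG(2, K)` if and only if the polynomial `x² + x + 1` has a root in `K`. For `K = 𝔽_p` this happens for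
`p ≡ 1 (mod 3)` and does not happen for `p ≡ 2 (mod 3)`.
-/

set_option autoImplicit false

namespace Pool.Agent.Results.MP_5e7574_co.MoebiusKantor

open Filter Topology

/-- A finite bipartite graph `(V₁, V₂, E)` with labelled classes and `E ⊆ V₁ × V₂`. -/
structure BiGraph where
  V₁ : Type
  V₂ : Type
  fin₁ : Finite V₁
  fin₂ : Finite V₂
  E : V₁ → V₂ → Prop

/-- The class `𝓑₀`: the graph has at least one edge. -/
def HasEdge (H : BiGraph) : Prop := ∃ x y, H.E x y

/-- The number of the label-preserving graph homomorphisms `H → G` that are injective on vertices. -/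
noncomputable def inj (H G : BiGraph) : ℕ :=
  Nat.card {f : (H.V₁ → G.V₁) × (H.V₂ → G.V₂) //
    Function.Injective f.1 ∧ Function.Injective f.2 ∧ ∀ x y, H.E x y → G.E (f.1 x) (f.2 y)}

/-- The incidence graph of `PG(2, K)` for a finite field `K`: the points are the subspaces of `K³` of dimension `1`,
the lines are the subspaces of dimension `2`, incidence is inclusion. -/
noncomputable def planeGraph (K : Type) [Field K] [Finite K] : BiGraph where
  V₁ := {W : Submodule K (Fin 3 → K) // Module.finrank K W = 1}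
  V₂ := {W : Submodule K (Fin 3 → K) // Module.finrank K W = 2}
  fin₁ := inferInstance
  fin₂ := inferInstance
  E := fun P L => P.1 ≤ L.1

/-- `log_p N` as an element of `[-∞, ∞)`, with `log_p 0 = -∞`. -/
noncomputable def logE (p N : ℕ) : EReal :=
  if N = 0 then ⊥ else ((Real.logb p N : ℝ) : EReal)

/-- The `k`-th term `log_p inj(H, G_p)`, where `p` is the `k`-th prime (numbered from `0`). -/
noncomputable def term (H : BiGraph) (k : ℕ) : EReal :=
  haveI : Fact (Nat.nth Nat.Prime k).Prime := ⟨Nat.prime_nth_prime k⟩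
  logE (Nat.nth Nat.Prime k) (inj H (planeGraph (ZMod (Nat.nth Nat.Prime k))))

/-- The incidence graph of the Möbius-Kantor configuration. -/
def MK : BiGraph where
  V₁ := Fin 8
  V₂ := Fin 8
  fin₁ := inferInstance
  fin₂ := inferInstance
  E := fun i j => i = j ∨ i = j + 1 ∨ i = j + 3

section Vectors

variable {K : Type} [Field K]

abbrev E3 (K : Type) [Field K] := Fin 3 → K

/-- `P` are points and `L` are lines that realise the configuration. -/
def Realises (P L : Fin 8 → Submodule K (E3 K)) : Prop :=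
  Function.Injective P ∧ Function.Injective L ∧ (∀ i, Module.finrank K (P i) = 1) ∧
    (∀ i, Module.finrank K (L i) = 2) ∧ ∀ i j : Fin 8, (i = j ∨ i = j + 1 ∨ i = j + 3) → P i ≤ L j

theorem comb_of_mem {L : Submodule K (E3 K)} (hL : Module.finrank K L = 2) {u w z : E3 K}
    (hu : u ∈ L) (hw : w ∈ L) (hz : z ∈ L) (hlin : LinearIndependent K ![u, w]) :
    ∃ a b : K, z = a • u + b • w := by
  have h1 : Submodule.span K (Set.range ![u, w]) ≤ L := by
    rw [Submodule.span_le]
    rintro x ⟨i, rfl⟩
    fin_cases i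
    · exact hu
    · exact hw
  have h2 : Module.finrank K (Submodule.span K (Set.range ![u, w])) = 2 := by
    rw [finrank_span_eq_card hlin]
    simp
  have h3 : Submodule.span K (Set.range ![u, w]) = L :=
    Submodule.eq_of_le_of_finrank_le h1 (by rw [h2, hL])
  rw [← h3] at hz
  have h4 : (Set.range ![u, w]) = {u, w} := by
    simp [Matrix.range_cons, Matrix.range_empty, Set.pair_comm]
  rw [h4, Submodule.mem_span_pair] at hz
  obtain ⟨a, b, h⟩ := hz
  exact ⟨a, b, h.symm⟩

theorem indep_of_ne {u w : E3 K} (hu : u ≠ 0) (hw : w ≠ 0)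
    (h : Submodule.span K {u} ≠ Submodule.span K {w}) : LinearIndependent K ![u, w] := by
  rw [LinearIndependent.pair_iff]
  intro a b hab
  by_cases hb : b = 0
  · subst hb
    rw [zero_smul, add_zero] at hab
    exact ⟨(smul_eq_zero.1 hab).resolve_right hu, rfl⟩
  · exfalso
    apply h
    have h1 : w ∈ Submodule.span K {u} := by
      rw [Submodule.mem_span_singleton]
      refine ⟨-(b⁻¹ * a), ?_⟩
      have : b • w = -(a • u) := by
        rw [eq_neg_iff_add_eq_zero, add_comm]
        exact hab
      calc (-(b⁻¹ * a)) • u = b⁻¹ • (-(a • u)) := by module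
        _ = b⁻¹ • (b • w) := by rw [this]
        _ = w := by rw [smul_smul, inv_mul_cancel₀ hb, one_smul]
    symm
    apply Submodule.eq_of_le_of_finrank_le
    · rw [Submodule.span_singleton_le_iff_mem]
      exact h1
    · rw [finrank_span_singleton hu, finrank_span_singleton hw]

/-- A realisation gives a root of `x² + x + 1`. -/
theorem root_of_realises {P L : Fin 8 → Submodule K (E3 K)} (h : Realises P L) :
    ∃ x : K, x ^ 2 + x + 1 = 0 := by
  obtain ⟨hPi, hLi, hP, hL, hinc⟩ := h
  have hvec : ∀ i, ∃ v : E3 K, v ≠ 0 ∧ P i = Submodule.span K {v} := by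
    intro i
    obtain ⟨v, hv, hv'⟩ := finrank_eq_one_iff'.1 (hP i)
    refine ⟨v.1, fun h => hv (Subtype.ext h), ?_⟩
    apply le_antisymm
    · intro w hw
      obtain ⟨c, hc⟩ := hv' ⟨w, hw⟩
      rw [Submodule.mem_span_singleton]
      exact ⟨c, congrArg Subtype.val hc⟩
    · rw [Submodule.span_singleton_le_iff_mem]
      exact v.2
  choose u hu0 hu using hvec
  have hmem : ∀ i j : Fin 8, (i = j ∨ i = j + 1 ∨ i = j + 3) → u i ∈ L j := by
    intro i j hij
    have := hinc i j hij
    rw [hu i, Submodule.span_singleton_le_iff_mem] at this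
    exact this
  have hind : ∀ i j, i ≠ j → LinearIndependent K ![u i, u j] := by
    intro i j hij
    apply indep_of_ne (hu0 i) (hu0 j)
    rw [← hu i, ← hu j]
    exact fun h => hij (hPi h)
  have hcomb : ∀ i j k l : Fin 8, i ≠ j → k ≠ i → k ≠ j → (i = l ∨ i = l + 1 ∨ i = l + 3) →
      (j = l ∨ j = l + 1 ∨ j = l + 3) → (k = l ∨ k = l + 1 ∨ k = l + 3) →
      ∃ a b : K, a ≠ 0 ∧ b ≠ 0 ∧ u k = a • u i + b • u j := by
    intro i j k l hij hki hkj hi hj hk
    obtain ⟨a, b, hab⟩ := comb_of_mem (hL l) (hmem i l hi) (hmem j l hj) (hmem k l hk) (hind i j hij)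
    refine ⟨a, b, ?_, ?_, hab⟩
    · rintro rfl
      have := hind k j hkj
      rw [LinearIndependent.pair_iff] at this
      have h1 := (this 1 (-b) (by rw [hab]; module)).1
      exact one_ne_zero h1
    · rintro rfl
      have := hind k i hki
      rw [LinearIndependent.pair_iff] at this
      have h1 := (this 1 (-a) (by rw [hab]; module)).1
      exact one_ne_zero h1
  -- `u 0, u 1, u 2` are linearly independent
  have hbase : ∀ α β γ : K, α • u 0 + β • u 1 + γ • u 2 = 0 → α = 0 ∧ β = 0 ∧ γ = 0 := by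
    intro α β γ h0
    by_cases hγ : γ = 0
    · subst hγ
      have := hind 0 1 (by decide)
      rw [LinearIndependent.pair_iff] at this
      have h1 := this α β (by rw [zero_smul, add_zero] at h0; exact h0)
      exact ⟨h1.1, h1.2, rfl⟩
    · exfalso
      have h2 : u 2 ∈ L 0 := by
        have : u 2 = (-(γ⁻¹ * α)) • u 0 + (-(γ⁻¹ * β)) • u 1 := by
          have h3 : γ • u 2 = -(α • u 0 + β • u 1) := by
            rw [eq_neg_iff_add_eq_zero, add_comm]
            exact h0
          calc u 2 = γ⁻¹ • (γ • u 2) := by rw [smul_smul, inv_mul_cancel₀ hγ, one_smul]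
            _ = γ⁻¹ • (-(α • u 0 + β • u 1)) := by rw [h3]
            _ = _ := by module
        rw [this]
        exact Submodule.add_mem _ (Submodule.smul_mem _ _ (hmem 0 0 (by decide)))
          (Submodule.smul_mem _ _ (hmem 1 0 (by decide)))
      -- the lines `0` and `1` share the points `1` and `2`
      have h3 : L 0 = L 1 := by
        have h5 : ∀ j : Fin 8, u 1 ∈ L j → u 2 ∈ L j →
            Submodule.span K (Set.range ![u 1, u 2]) = L j := by
          intro j h1 h2
          apply Submodule.eq_of_le_of_finrank_le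
          · rw [Submodule.span_le]
            rintro x ⟨i, rfl⟩
            fin_cases i
            · exact h1
            · exact h2
          · rw [finrank_span_eq_card (hind 1 2 (by decide)), hL]
            simp
        rw [← h5 0 (hmem 1 0 (by decide)) h2, ← h5 1 (hmem 1 1 (by decide)) (hmem 2 1 (by decide))]
      exact absurd (hLi h3) (by decide)
  obtain ⟨a, b, ha, hb, h3⟩ := hcomb 0 1 3 0 (by decide) (by decide) (by decide) (by decide)
    (by decide) (by decide)
  obtain ⟨c, d, hc, hd, h4⟩ := hcomb 1 2 4 1 (by decide) (by decide) (by decide) (by decide)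
    (by decide) (by decide)
  obtain ⟨e, f, he, hf, h7⟩ := hcomb 0 2 7 7 (by decide) (by decide) (by decide) (by decide)
    (by decide) (by decide)
  obtain ⟨g, h, hg, hh, h5⟩ := hcomb 2 3 5 2 (by decide) (by decide) (by decide) (by decide)
    (by decide) (by decide)
  obtain ⟨i, j, hi, hj, h5'⟩ := hcomb 4 7 5 4 (by decide) (by decide) (by decide) (by decide)
    (by decide) (by decide)
  obtain ⟨k, l, hk, hl, h6⟩ := hcomb 7 1 6 6 (by decide) (by decide) (by decide) (by decide)
    (by decide) (by decide)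
  obtain ⟨m, n, hm, hn, h6'⟩ := hcomb 3 4 6 3 (by decide) (by decide) (by decide) (by decide)
    (by decide) (by decide)
  obtain ⟨o, q, ho, hq, h6''⟩ := hcomb 5 0 6 5 (by decide) (by decide) (by decide) (by decide)
    (by decide) (by decide)
  -- coordinates
  have e5 : u 5 = (h * a) • u 0 + (h * b) • u 1 + g • u 2 := by rw [h5, h3]; module
  have e5' : u 5 = (j * e) • u 0 + (i * c) • u 1 + (i * d + j * f) • u 2 := by
    rw [h5', h4, h7]; module
  have e6 : u 6 = (k * e) • u 0 + l • u 1 + (k * f) • u 2 := by rw [h6, h7]; module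
  have e6' : u 6 = (m * a) • u 0 + (m * b + n * c) • u 1 + (n * d) • u 2 := by
    rw [h6', h3, h4]; module
  have e6'' : u 6 = (o * h * a + q) • u 0 + (o * h * b) • u 1 + (o * g) • u 2 := by
    rw [h6'', e5]; module
  have cmp : ∀ α β γ α' β' γ' : K,
      α • u 0 + β • u 1 + γ • u 2 = α' • u 0 + β' • u 1 + γ' • u 2 →
      α = α' ∧ β = β' ∧ γ = γ' := by
    intro α β γ α' β' γ' hE
    have h1 := hbase (α - α') (β - β') (γ - γ') (by
      have : (α - α') • u 0 + (β - β') • u 1 + (γ - γ') • u 2 =
          (α • u 0 + β • u 1 + γ • u 2) - (α' • u 0 + β' • u 1 + γ' • u 2) := by module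
      rw [this, hE, sub_self])
    exact ⟨sub_eq_zero.1 h1.1, sub_eq_zero.1 h1.2.1, sub_eq_zero.1 h1.2.2⟩
  obtain ⟨q1, q2, q3⟩ := cmp _ _ _ _ _ _ (e5.symm.trans e5')
  obtain ⟨q4, q5, q6⟩ := cmp _ _ _ _ _ _ (e6.symm.trans e6')
  obtain ⟨-, q7, q8⟩ := cmp _ _ _ _ _ _ (e6.symm.trans e6'')
  have r1 : g * c * e = h * (e * b * d + a * f * c) := by
    linear_combination c * e * q3 - e * d * q2 - c * f * q1
  have r2 : l * a * d = k * (e * b * d + a * f * c) := by
    linear_combination a * d * q5 - b * d * q4 - a * c * q6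
  have r3 : l * g = h * b * (k * f) := by
    linear_combination g * q7 - h * b * q8
  have r4 : (k * h) * ((e * b * d + a * f * c) ^ 2 - (a * f * c) * (e * b * d)) = 0 := by
    linear_combination (-(k * (e * b * d + a * f * c))) * r1 - (g * c * e) * r2 +
      (c * e * a * d) * r3
  have r5 : (e * b * d + a * f * c) ^ 2 - (a * f * c) * (e * b * d) = 0 :=
    (mul_eq_zero.1 r4).resolve_left (mul_ne_zero hk hh)
  have hY : e * b * d ≠ 0 := mul_ne_zero (mul_ne_zero he hb) hd
  refine ⟨(a * f * c) / (e * b * d), ?_⟩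
  field_simp
  linear_combination r5

/-! ### Construction -/

/-- the points of the configuration -/
def vec (x : K) : Fin 8 → E3 K :=
  ![![1, 0, 0], ![0, 1, 0], ![0, 0, 1], ![1, 1, 0], ![0, 1, 1], ![1, 1, 1 + x], ![1, 1 + x, x],
    ![1, 0, x]]

/-- the coefficients of the lines of the configuration -/
def cov (x : K) : Fin 8 → E3 K :=
  ![![0, 0, 1], ![1, 0, 0], ![1, -1, 0], ![1, -1, 1], ![-x, -1, 1], ![0, 1 + x, -1], ![x, 0, -1],
    ![0, 1, 0]]

/-- the linear form with the coefficients `c` -/
def form (c : E3 K) : E3 K →ₗ[K] K where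
  toFun := fun v => c 0 * v 0 + c 1 * v 1 + c 2 * v 2
  map_add' := by
    intro v w
    simp only [Pi.add_apply]
    ring
  map_smul' := by
    intro r v
    simp only [Pi.smul_apply, smul_eq_mul, RingHom.id_apply]
    ring

/-- the possible values of the linear forms at the points -/
def code (x : K) : Fin 7 → K := ![0, 1, -1, x, -x, 1 + x, -(1 + x)]

/-- the values of the linear forms (rows) at the points (columns) -/
def table : Fin 8 → Fin 8 → Fin 7 :=
  ![![0, 0, 1, 0, 1, 5, 3, 3], ![1, 0, 0, 1, 0, 1, 1, 1], ![1, 2, 0, 0, 2, 0, 4, 1],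
    ![1, 2, 1, 0, 0, 5, 0, 5], ![4, 2, 1, 6, 0, 0, 6, 0], ![0, 5, 2, 5, 3, 0, 0, 4],
    ![3, 0, 2, 3, 2, 2, 0, 0], ![0, 1, 0, 1, 1, 1, 5, 0]]

theorem form_val {x : K} (hx : x ^ 2 + x + 1 = 0) (i j : Fin 8) :
    form (cov x j) (vec x i) = code x (table j i) := by
  have hx' : 1 + x + x ^ 2 = 0 := by linear_combination hx
  have hf : form (cov x j) (vec x i) =
    cov x j 0 * vec x i 0 + cov x j 1 * vec x i 1 + cov x j 2 * vec x i 2 := rfl
  rw [hf]
  fin_cases i <;> fin_cases j <;> simp [cov, vec, table, code] <;> ring_nf <;> exact hx'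

theorem table_zero : ∀ i j : Fin 8, (i = j ∨ i = j + 1 ∨ i = j + 3) → table j i = 0 := by decide

theorem table_ne : ∀ i j : Fin 8, ¬ (i = j ∨ i = j + 1 ∨ i = j + 3) → table j i ≠ 0 := by decide

theorem form_zero {x : K} (hx : x ^ 2 + x + 1 = 0) (i j : Fin 8)
    (hij : i = j ∨ i = j + 1 ∨ i = j + 3) : form (cov x j) (vec x i) = 0 := by
  rw [form_val hx, table_zero i j hij]
  rfl

theorem code_ne {x : K} (hx : x ^ 2 + x + 1 = 0) (c : Fin 7) (hc : c ≠ 0) : code x c ≠ 0 := by
  have hx0 : x ≠ 0 := by rintro rfl; norm_num at hx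
  have hx1 : 1 + x ≠ 0 := by
    intro h
    have : x = -1 := by linear_combination h
    rw [this] at hx
    norm_num at hx
  fin_cases c
  · exact absurd rfl hc
  · exact one_ne_zero
  · exact neg_ne_zero.2 one_ne_zero
  · exact hx0
  · exact neg_ne_zero.2 hx0
  · exact hx1
  · exact neg_ne_zero.2 hx1

theorem form_ne_zero {x : K} (hx : x ^ 2 + x + 1 = 0) (i j : Fin 8)
    (hij : ¬ (i = j ∨ i = j + 1 ∨ i = j + 3)) : form (cov x j) (vec x i) ≠ 0 := by
  rw [form_val hx]
  exact code_ne hx _ (table_ne i j hij)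

theorem sep : ∀ i j : Fin 8, i ≠ j → ∃ k : Fin 8, (i = k ∨ i = k + 1 ∨ i = k + 3) ∧
    ¬ (j = k ∨ j = k + 1 ∨ j = k + 3) := by decide

theorem sep' : ∀ i j : Fin 8, i ≠ j → ∃ k : Fin 8, (k = i ∨ k = i + 1 ∨ k = i + 3) ∧
    ¬ (k = j ∨ k = j + 1 ∨ k = j + 3) := by decide

theorem off : ∀ i : Fin 8, ∃ k : Fin 8, ¬ (i = k ∨ i = k + 1 ∨ i = k + 3) := by decide

theorem off' : ∀ k : Fin 8, ∃ i : Fin 8, ¬ (i = k ∨ i = k + 1 ∨ i = k + 3) := by decide

/-- A root of `x² + x + 1` gives a realisation. -/
theorem realises_of_root {x : K} (hx : x ^ 2 + x + 1 = 0) :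
    ∃ P L : Fin 8 → Submodule K (E3 K), Realises P L := by
  have hv : ∀ i, vec x i ≠ 0 := by
    intro i h
    obtain ⟨k, hk⟩ := off i
    apply form_ne_zero hx i k hk
    rw [h, map_zero]
  have hf : ∀ j, form (cov x j) ≠ 0 := by
    intro j h
    obtain ⟨i, hi⟩ := off' j
    apply form_ne_zero hx i j hi
    rw [h, LinearMap.zero_apply]
  refine ⟨fun i => Submodule.span K {vec x i}, fun j => LinearMap.ker (form (cov x j)),
    ?_, ?_, ?_, ?_, ?_⟩
  · intro i j hij
    by_contra hne
    obtain ⟨k, hk1, hk2⟩ := sep i j hne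
    apply form_ne_zero hx j k hk2
    have : vec x j ∈ Submodule.span K {vec x i} := by
      have h : Submodule.span K {vec x i} = Submodule.span K {vec x j} := hij
      rw [h]
      exact Submodule.mem_span_singleton_self _
    obtain ⟨c, hc⟩ := Submodule.mem_span_singleton.1 this
    rw [← hc, map_smul, form_zero hx i k hk1, smul_zero]
  · intro i j hij
    by_contra hne
    obtain ⟨k, hk1, hk2⟩ := sep' i j hne
    apply form_ne_zero hx k j hk2
    have h : LinearMap.ker (form (cov x i)) = LinearMap.ker (form (cov x j)) := hij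
    have : vec x k ∈ LinearMap.ker (form (cov x i)) := LinearMap.mem_ker.2 (form_zero hx k i hk1)
    rw [h] at this
    exact LinearMap.mem_ker.1 this
  · intro i
    exact finrank_span_singleton (hv i)
  · intro j
    have := Module.Dual.finrank_ker_add_one_of_ne_zero (K := K) (V₁ := E3 K) (f := form (cov x j))
      (hf j)
    rw [Module.finrank_fin_fun] at this
    show Module.finrank K (LinearMap.ker (form (cov x j))) = 2
    omega
  · intro i j hij
    show Submodule.span K {vec x i} ≤ LinearMap.ker (form (cov x j))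
    rw [Submodule.span_singleton_le_iff_mem]
    exact LinearMap.mem_ker.2 (form_zero hx i j hij)

end Vectors

/-- The number of injective homomorphisms of the Möbius-Kantor configuration into `PG(2, K)` is positive if and only
if `x² + x + 1` has a root in `K`. -/
theorem inj_pos_iff (K : Type) [Field K] [Finite K] :
    inj MK (planeGraph K) ≠ 0 ↔ ∃ x : K, x ^ 2 + x + 1 = 0 := by
  constructor
  · intro h
    unfold inj at h
    have hne : Nonempty {f : (MK.V₁ → (planeGraph K).V₁) × (MK.V₂ → (planeGraph K).V₂) //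
        Function.Injective f.1 ∧ Function.Injective f.2 ∧
        ∀ x y, MK.E x y → (planeGraph K).E (f.1 x) (f.2 y)} := by
      by_contra hemp
      rw [not_nonempty_iff] at hemp
      exact h Nat.card_of_isEmpty
    obtain ⟨⟨⟨f, g⟩, hf, hg, hfg⟩⟩ := hne
    apply root_of_realises (P := fun i => (f i).1) (L := fun j => (g j).1)
    refine ⟨fun i j hij => hf (Subtype.ext hij), fun i j hij => hg (Subtype.ext hij),
      fun i => (f i).2, fun i => (g i).2, fun i j hij => hfg i j hij⟩
  · rintro ⟨x, hx⟩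
    obtain ⟨P, L, hP, hL, hP1, hL2, hinc⟩ := realises_of_root hx
    unfold inj
    have f1 : Finite (MK.V₁ → (planeGraph K).V₁) := by
      have := MK.fin₁
      have := (planeGraph K).fin₁
      exact Pi.finite
    have f2 : Finite (MK.V₂ → (planeGraph K).V₂) := by
      have := MK.fin₂
      have := (planeGraph K).fin₂
      exact Pi.finite
    have hne : Nonempty {f : (MK.V₁ → (planeGraph K).V₁) × (MK.V₂ → (planeGraph K).V₂) //
        Function.Injective f.1 ∧ Function.Injective f.2 ∧
        ∀ x y, MK.E x y → (planeGraph K).E (f.1 x) (f.2 y)} :=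
      ⟨⟨(fun i => ⟨P i, hP1 i⟩, fun j => ⟨L j, hL2 j⟩), fun i j hij => hP (Subtype.ext_iff.1 hij),
        fun i j hij => hL (Subtype.ext_iff.1 hij), fun i j hij => hinc i j hij⟩⟩
    exact Nat.card_pos.ne'

theorem root_of_one {p : ℕ} [Fact p.Prime] (h : p ≡ 1 [MOD 3]) :
    ∃ x : ZMod p, x ^ 2 + x + 1 = 0 := by
  have hp : p.Prime := Fact.out
  have hdvd : 3 ∣ Fintype.card (ZMod p)ˣ := by
    rw [ZMod.card_units_eq_totient, Nat.totient_prime hp]
    exact (Nat.modEq_iff_dvd' hp.one_le).1 h.symm
  obtain ⟨y, hy⟩ := exists_prime_orderOf_dvd_card 3 hdvd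
  have h3 : y ^ 3 = 1 := by rw [← hy]; exact pow_orderOf_eq_one y
  have h1 : y ≠ 1 := by
    rintro rfl
    rw [orderOf_one] at hy
    norm_num at hy
  refine ⟨(y : ZMod p), ?_⟩
  have h3' : (y : ZMod p) ^ 3 = 1 := by
    have := congrArg (Units.val) h3
    simpa using this
  have h1' : (y : ZMod p) - 1 ≠ 0 := by
    intro h
    apply h1
    apply Units.ext
    rw [Units.val_one]
    exact sub_eq_zero.1 h
  have : ((y : ZMod p) - 1) * ((y : ZMod p) ^ 2 + y + 1) = 0 := by
    linear_combination h3'
  exact (mul_eq_zero.1 this).resolve_left h1'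

theorem no_root_of_two {p : ℕ} [Fact p.Prime] (h : p ≡ 2 [MOD 3]) :
    ¬ ∃ x : ZMod p, x ^ 2 + x + 1 = 0 := by
  rintro ⟨x, hx⟩
  have hp : p.Prime := Fact.out
  have h3 : x ^ 3 = 1 := by linear_combination (x - 1) * hx
  have hx0 : x ≠ 0 := by rintro rfl; norm_num at hx
  have hfer : x ^ (p - 1) = 1 := ZMod.pow_card_sub_one_eq_one hx0
  obtain ⟨k, hk⟩ : ∃ k, p - 1 = 3 * k + 1 := by
    have h1 : p % 3 = 2 := h
    exact ⟨(p - 1) / 3, by omega⟩
  rw [hk, pow_succ, pow_mul, h3, one_pow, one_mul] at hfer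
  rw [hfer] at hx
  have h30 : ((3 : ℕ) : ZMod p) = 0 := by
    push_cast
    linear_combination hx
  rw [ZMod.natCast_eq_zero_iff] at h30
  have : p = 3 := (Nat.prime_dvd_prime_iff_eq hp Nat.prime_three).1 h30
  subst this
  have h1 : 3 % 3 = 2 := h
  omega

theorem frequently_nth {Q : ℕ → Prop} (h : ∀ n : ℕ, ∃ p > n, p.Prime ∧ Q p) :
    ∃ᶠ k : ℕ in atTop, Q (Nat.nth Nat.Prime k) := by
  classical
  rw [frequently_atTop]
  intro n
  obtain ⟨p, hpn, hp, hQ⟩ := h (Nat.nth Nat.Prime n)
  refine ⟨Nat.count Nat.Prime p, ?_, ?_⟩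
  · have h1 : Nat.nth Nat.Prime n < Nat.nth Nat.Prime (Nat.count Nat.Prime p) := by
      rw [Nat.nth_count hp]
      exact hpn
    exact ((Nat.nth_strictMono Nat.infinite_setOfPred_prime).lt_iff_lt.1 h1).le
  · rw [Nat.nth_count hp]
    exact hQ

/-- **Q1 is answered in the negative.** There is a finite bipartite graph `H` with at least one edge such that the
sequence `log_p inj(H, G_p)`, `p` running through the primes in increasing order, is equal to `-∞` infinitely often
and is nonnegative infinitely often. Its lower limit `-∞` is smaller than its upper limit, and it has no limit in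
`[-∞, ∞]`. -/
theorem result : ∃ H : BiGraph, HasEdge H ∧
    (∃ᶠ k : ℕ in atTop, term H k = ⊥) ∧ (∃ᶠ k : ℕ in atTop, 0 ≤ term H k) ∧
    liminf (term H) atTop < limsup (term H) atTop ∧
    ¬ ∃ l : EReal, Tendsto (term H) atTop (𝓝 l) := by
  have hbot : ∃ᶠ k : ℕ in atTop, term MK k = ⊥ := by
    have := frequently_nth (Q := fun p => p ≡ 2 [MOD 3])
      (fun n => Nat.forall_exists_prime_gt_and_modEq n (by norm_num) (by norm_num))
    refine this.mono (fun k hk => ?_)
    have : Fact (Nat.nth Nat.Prime k).Prime := ⟨Nat.prime_nth_prime k⟩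
    have h0 : inj MK (planeGraph (ZMod (Nat.nth Nat.Prime k))) = 0 := by
      by_contra h
      exact no_root_of_two hk ((inj_pos_iff _).1 h)
    unfold term logE
    rw [if_pos h0]
  have hnn : ∃ᶠ k : ℕ in atTop, 0 ≤ term MK k := by
    have := frequently_nth (Q := fun p => p ≡ 1 [MOD 3])
      (fun n => Nat.forall_exists_prime_gt_and_modEq n (by norm_num) (by norm_num))
    refine this.mono (fun k hk => ?_)
    have : Fact (Nat.nth Nat.Prime k).Prime := ⟨Nat.prime_nth_prime k⟩
    have h0 : inj MK (planeGraph (ZMod (Nat.nth Nat.Prime k))) ≠ 0 :=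
      (inj_pos_iff _).2 (root_of_one hk)
    unfold term logE
    rw [if_neg h0]
    have h1 : (0 : ℝ) ≤ Real.logb (Nat.nth Nat.Prime k)
        (inj MK (planeGraph (ZMod (Nat.nth Nat.Prime k)))) := by
      apply Real.logb_nonneg
      · exact_mod_cast (Nat.prime_nth_prime k).one_lt
      · exact_mod_cast Nat.one_le_iff_ne_zero.2 h0
    exact_mod_cast h1
  refine ⟨MK, ⟨(0 : Fin 8), (0 : Fin 8), Or.inl rfl⟩, hbot, hnn, ?_, ?_⟩
  · have h1 : liminf (term MK) atTop ≤ ⊥ :=
      liminf_le_of_frequently_le (hbot.mono fun k hk => hk.le)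
    have h2 : (0 : EReal) ≤ limsup (term MK) atTop := le_limsup_of_frequently_le hnn
    exact lt_of_le_of_lt h1 (lt_of_lt_of_le EReal.bot_lt_zero h2)
  · rintro ⟨l, hl⟩
    have h1 : l ∈ ({⊥} : Set EReal) := isClosed_singleton.mem_of_frequently_of_tendsto
      (hbot.mono fun k hk => hk) hl
    have h2 : l ∈ Set.Ici (0 : EReal) := isClosed_Ici.mem_of_frequently_of_tendsto
      (hnn.mono fun k hk => hk) hl
    rw [Set.mem_singleton_iff] at h1
    rw [h1] at h2
    exact absurd h2 (not_le.2 EReal.bot_lt_zero)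

end Pool.Agent.Results.MP_5e7574_co.MoebiusKantor
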